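import Pool.Agent.P8H20.RC.Alpha6

/-!
# Project RC (helper79), package BETA6: a link which is not acyclic has at most as many edges as
vertices.
-/

set_option autoImplicit false

namespace Pool.Agent.P8H22.RC

open Pool.Agent.P8H79.RC Pool.Agent.P8H1.RC Pool.Agent.P8H20.RC

theorem exists_emb' {V : Type} {G : SimpleGraph V} {r : ℕ} (hr : 3 ≤ r) (f : ℕ → V)
    (hinj : ∀ i j, i < j → j < r → f i ≠ f j)
    (hadj : ∀ i j, i < j → j < r → (G.Adj (f i) (f j) ↔ (i + 1 = j ∨ (i = 0 ∧ j + 1 = r)))) :
    ∃ e : SimpleGraph.cycleGraph r ↪g G, ∀ i, e i = f i.val := by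
  refine ⟨⟨⟨fun i => f i.val, ?_⟩, ?_⟩, fun i => rfl⟩
  · intro i j h
    rcases Nat.lt_trichotomy i.val j.val with h1 | h1 | h1
    · exact absurd h (hinj _ _ h1 j.2)
    · exact Fin.ext h1
    · exact absurd h.symm (hinj _ _ h1 i.2)
  · intro i j
    show G.Adj (f i.val) (f j.val) ↔ _
    rw [Pool.Agent.P8H1.RC.cyc_adj (by omega)]
    have hi := i.2
    have hj := j.2
    rcases Nat.lt_trichotomy i.val j.val with h1 | h1 | h1
    · rw [hadj _ _ h1 j.2]
      omega
    · rw [h1]
      constructor
      · intro h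
        exact absurd h (SimpleGraph.irrefl G)
      · omega
    · rw [G.adj_comm, hadj _ _ h1 i.2]
      omega

/-- the cycle `o, C n, …, C (n + a), o'` -/
theorem arc_cycle {V : Type} {G : SimpleGraph V} {r : ℕ} (r0 : 0 < r) (hr4 : 4 ≤ r)
    (c : SimpleGraph.cycleGraph r ↪g G) {o o' : V} (ho : ∀ n, per r0 c n ≠ o)
    (ho' : ∀ n, per r0 c n ≠ o') (hoo : G.Adj o o') {n a : ℕ} (ha1 : 1 ≤ a) (ha : 2 * a ≤ r)
    (h1 : ∀ k ≤ a, G.Adj o (per r0 c (n + k)) ↔ k = 0)
    (h2 : ∀ k ≤ a, G.Adj o' (per r0 c (n + k)) ↔ k = a) :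
    ∃ e : SimpleGraph.cycleGraph (a + 3) ↪g G, ∀ i : Fin (a + 3), e i =
      (fun i : ℕ => if i = 0 then o else if i = a + 2 then o' else per r0 c (n + (i - 1))) i.val := by
  refine exists_emb' (r := a + 3) (by omega)
    (fun i : ℕ => if i = 0 then o else if i = a + 2 then o' else per r0 c (n + (i - 1))) ?_ ?_
  · intro i j hij hj
    have hj0 : j ≠ 0 := by omega
    simp only [hj0, if_false]
    by_cases hi : i = 0
    · simp only [hi, if_true]
      by_cases hj2 : j = a + 2
      · simp only [hj2, if_true]
        exact hoo.ne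
      · simp only [hj2, if_false]
        exact (ho _).symm
    · have hi2 : i ≠ a + 2 := by omega
      simp only [hi, hi2, if_false]
      by_cases hj2 : j = a + 2
      · simp only [hj2, if_true]
        exact ho' _
      · simp only [hj2, if_false]
        exact per_ne r0 c _ _ (by omega) (by omega)
  · intro i j hij hj
    have hj0 : j ≠ 0 := by omega
    simp only [hj0, if_false]
    by_cases hi : i = 0
    · simp only [hi, if_true]
      by_cases hj2 : j = a + 2
      · simp only [hj2, if_true]
        constructor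
        · intro _; right; exact ⟨trivial, trivial⟩
        · intro _; exact hoo
      · simp only [hj2, if_false]
        rw [h1 (j - 1) (by omega)]
        omega
    · have hi2 : i ≠ a + 2 := by omega
      simp only [hi, hi2, if_false]
      by_cases hj2 : j = a + 2
      · simp only [hj2, if_true]
        rw [G.adj_comm, h2 (i - 1) (by omega)]
        simp only [false_and, or_false]
        omega
      · simp only [hj2, if_false]
        rw [per_adj r0 (by omega) c _ _ (by omega) (by omega)]
        omega

/-- the bad configuration -/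
theorem bad {V : Type} [Fintype V] [DecidableEq V] {G : SimpleGraph V} {N r : ℕ}
    (h4 : G.CliqueFree 4) (hsh : NoShort G N)
    (hho : ∀ L, N = 2 * L → holes G L ≤ 2) (hr4 : 4 ≤ r) (hN : 12 ≤ N) (hNr : N = 2 * r)
    (c : SimpleGraph.cycleGraph r ↪g G) {v o o' : V} (hc : ∀ i, G.Adj v (c i)) (hvo : G.Adj v o)
    (hvo' : G.Adj v o') (ho : ∀ i, c i ≠ o) (ho' : ∀ i, c i ≠ o') (hoo : G.Adj o o')
    {i j : Fin r} (hi : G.Adj o (c i)) (hj : G.Adj o' (c j))
    (hiu : ∀ k, G.Adj o (c k) → k = i) (hju : ∀ k, G.Adj o' (c k) → k = j) : False := by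
  have r0 : 0 < r := by omega
  have hij : i ≠ j := by
    rintro rfl
    have h3 : G.IsNClique 3 {v, o, c i} :=
      SimpleGraph.is3Clique_triple_iff.2 ⟨hvo, hc i, hi⟩
    refine h4 _ (h3.insert (a := o') ?_)
    intro x hx
    simp only [Finset.mem_insert, Finset.mem_singleton] at hx
    rcases hx with rfl | rfl | rfl
    · exact hvo'.symm
    · exact hoo.symm
    · exact hj
  -- general arcs
  have main : ∀ {o o' : V} {i j : Fin r}, G.Adj v o → G.Adj v o' → (∀ i, c i ≠ o) →
      (∀ i, c i ≠ o') → G.Adj o o' → G.Adj o (c i) → G.Adj o' (c j) →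
      (∀ k, G.Adj o (c k) → k = i) → (∀ k, G.Adj o' (c k) → k = j) → ∀ a : ℕ, 1 ≤ a → 2 * a ≤ r →
      (i.val + a) % r = j.val →
      ∃ e : SimpleGraph.cycleGraph (a + 3) ↪g G, ∀ k : Fin (a + 3), e k =
        (fun k : ℕ => if k = 0 then o else if k = a + 2 then o' else
          per r0 c (i.val + (k - 1))) k.val := by
    intro o o' i j hvo hvo' ho ho' hoo hi hj hiu hju a ha1 ha haj
    refine arc_cycle r0 hr4 c (fun n => ho _) (fun n => ho' _) hoo ha1 ha ?_ ?_
    · intro k hk
      constructor
      · intro h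
        have h1 := congrArg Fin.val (hiu _ h)
        simp only at h1
        by_contra hk0
        have h2 := i.2
        rcases mod_cases r0 i.val (i.val + k) (by omega) (by omega) with h5 | h5 <;>
          rw [Nat.mod_eq_of_lt h2] at h5 <;> omega
      · rintro rfl
        have e : per r0 c (i.val + 0) = c i := by
          unfold per
          congr 1
          exact Fin.ext (Nat.mod_eq_of_lt i.2)
        rw [e]
        exact hi
    · intro k hk
      constructor
      · intro h
        have h1 := congrArg Fin.val (hju _ h)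
        simp only at h1
        by_contra hka
        have h2 := i.2
        rw [← haj] at h1
        have h6 := Nat.mod_lt (i.val + k) r0
        rcases mod_cases r0 (i.val + k) (i.val + a) (by omega) (by omega) with h5 | h5 <;> omega
      · rintro rfl
        have e : per r0 c (i.val + k) = c j := by
          unfold per
          congr 1
          exact Fin.ext haj
        rw [e]
        exact hj
  -- the distance
  obtain ⟨a, ha1, har, haj⟩ : ∃ a, 1 ≤ a ∧ a < r ∧ (i.val + a) % r = j.val := by
    have hi2 := i.2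
    have hj2 := j.2
    have hij' : i.val ≠ j.val := fun h => hij (Fin.ext h)
    rcases Nat.lt_or_ge i.val j.val with h | h
    · exact ⟨j.val - i.val, by omega, by omega, by
        rw [show i.val + (j.val - i.val) = j.val by omega, Nat.mod_eq_of_lt hj2]⟩
    · exact ⟨j.val + r - i.val, by omega, by omega, by
        rw [show i.val + (j.val + r - i.val) = j.val + r by omega, Nat.add_mod_right,
          Nat.mod_eq_of_lt hj2]⟩
  have haj' : (j.val + (r - a)) % r = i.val := by
    rw [← haj, Nat.mod_add_mod, show i.val + a + (r - a) = i.val + r by omega, Nat.add_mod_right,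
      Nat.mod_eq_of_lt i.2]
  have hlong : ∀ a', 1 ≤ a' → Nonempty (SimpleGraph.cycleGraph (a' + 3) ↪g G) → N ≤ 2 * (a' + 3) := by
    intro a' ha' ⟨e⟩
    by_contra h
    exact (hsh (a' + 3) (by omega) (by omega)).false e
  -- the arc is half of the cycle and `r = 6`
  have key : r = 6 ∧ a = 3 := by
    rcases Nat.lt_or_ge r (2 * a) with h | h
    · obtain ⟨e, -⟩ := main hvo' hvo ho' ho hoo.symm hj hi hju hiu (r - a) (by omega) (by omega) haj'
      have := hlong (r - a) (by omega) ⟨e⟩
      omega
    · obtain ⟨e, -⟩ := main hvo hvo' ho ho' hoo hi hj hiu hju a ha1 h haj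
      have := hlong a ha1 ⟨e⟩
      omega
  obtain ⟨rfl, rfl⟩ := key
  obtain ⟨e₁, he₁⟩ := main hvo hvo' ho ho' hoo hi hj hiu hju 3 (by omega) (by omega) haj
  obtain ⟨e₂, he₂⟩ := main hvo' hvo ho' ho hoo.symm hj hi hju hiu 3 (by omega) (by omega) haj'
  have h6 : 3 ≤ holes G 6 := by
    refine three_holes e₁ e₂ c ?_ ?_ ?_
    · -- `C (i + 1)` is not in the second cycle
      intro h
      have h1 : per r0 c (i.val + 1) ∈ Set.range e₂ := by
        rw [← h]
        exact ⟨⟨2, by omega⟩, by rw [he₁]; simp⟩
      obtain ⟨k, hk⟩ := h1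
      rw [he₂] at hk
      have hk2 := k.2
      dsimp only at hk
      split_ifs at hk with hk0 hk5
      · exact ho' _ hk.symm
      · exact ho _ hk.symm
      · unfold per at hk
        have h7 := congrArg Fin.val (c.injective hk)
        simp only at h7
        have h8 := i.2
        have h9 := j.2
        omega
    · intro h
      have h1 : o ∈ Set.range c := by
        rw [← h]
        exact ⟨⟨0, by omega⟩, by rw [he₁]; simp⟩
      obtain ⟨k, hk⟩ := h1
      exact ho k hk
    · intro h
      have h1 : o' ∈ Set.range c := by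
        rw [← h]
        exact ⟨⟨0, by omega⟩, by rw [he₂]; simp⟩
      obtain ⟨k, hk⟩ := h1
      exact ho' k hk
  have := hho 6 (by omega)
  omega

theorem beta6 : S_BETA6 := by
  classical
  intro V _ G hN h4 hsh hho l hl6 hl q hq v hv
  obtain ⟨r, hr4, hr, c, hc⟩ := exists_cyc h4 hsh hv
  have hl0 : 0 < l := by omega
  have r0 : 0 < r := by omega
  have b1 : l + (nbh G v).card ≤ 3 + Fintype.card V := by
    refine pos_bound hl0 hq.inj _ 3 ?_
    refine le_trans (le_of_eq ?_) (hq.ball1 v)
    congr 1
    ext i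
    simp only [Set.mem_ofPred_eq, mem_nbh]
  obtain ⟨D, hD⟩ : ∃ D : Finset V, D = Finset.univ.filter fun x => G.Adj v x := ⟨_, rfl⟩
  obtain ⟨W, hW⟩ : ∃ W : Finset V, W = Finset.univ.filter fun x => G.Adj v x ∧ ∀ i, c i ≠ x :=
    ⟨_, rfl⟩
  have hDc : (G.neighborSet v).ncard = D.card := by
    rw [← Set.ncard_coe_finset]
    congr 1
    ext x
    rw [hD]
    simp
  have hnb : (nbh G v).card = D.card + 1 := by
    have h1 : nbh G v = insert v D := by
      ext x
      rw [mem_nbh, Finset.mem_insert, hD]
      simp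
    rw [h1, Finset.card_insert_of_notMem]
    rw [hD]
    simp
  have hDW : D.card = r + W.card := by
    have h1 : D = Finset.univ.image c ∪ W := by
      ext x
      rw [hD, hW]
      simp only [Finset.mem_filter, Finset.mem_univ, true_and, Finset.mem_union, Finset.mem_image]
      constructor
      · intro h
        by_cases hx : ∃ i, c i = x
        · exact Or.inl hx
        · push Not at hx
          exact Or.inr ⟨h, hx⟩
      · rintro (⟨i, rfl⟩ | h)
        · exact hc i
        · exact h.1
    have h2 : Disjoint (Finset.univ.image c) W := by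
      rw [Finset.disjoint_left]
      intro x hx hx'
      rw [hW] at hx'
      simp only [Finset.mem_image, Finset.mem_univ, true_and] at hx
      obtain ⟨i, rfl⟩ := hx
      exact (Finset.mem_filter.1 hx').2.2 i rfl
    rw [h1, Finset.card_union_of_disjoint h2, Finset.card_image_of_injective _ c.injective,
      Finset.card_univ, Fintype.card_fin]
  -- the edges of the link
  obtain ⟨E, hE⟩ : ∃ E : Set (Sym2 V),
      E = {e | ∃ x y, G.Adj v x ∧ G.Adj v y ∧ G.Adj x y ∧ e = s(x, y)} := ⟨_, rfl⟩
  have hEle : (link G v).edgeSet.ncard ≤ E.ncard := by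
    refine Set.ncard_le_ncard_of_injOn (Sym2.map Subtype.val) ?_
      (Sym2.map.injective Subtype.val_injective).injOn (Set.toFinite _)
    intro e he
    induction e using Sym2.ind with
    | _ x y =>
      rw [hE]
      rw [SimpleGraph.mem_edgeSet] at he
      exact ⟨x.1, y.1, x.2, y.2, he, by simp⟩
  obtain ⟨Z, hZ⟩ : ∃ Z : Finset (Sym2 V),
      Z = Finset.univ.image fun i : Fin r => s(per r0 c i.val, per r0 c (i.val + 1)) := ⟨_, rfl⟩
  have hZc : Z.card ≤ r := by
    rw [hZ]
    refine Finset.card_image_le.trans ?_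
    rw [Finset.card_univ, Fintype.card_fin]
  obtain ⟨B, hB⟩ : ∃ B : V → Finset (Sym2 V),
      B = fun o => (Finset.univ.filter fun i : Fin r => G.Adj o (c i)).image fun i => s(o, c i) :=
    ⟨_, rfl⟩
  have hper : ∀ i : Fin r, per r0 c i.val = c i := by
    intro i
    unfold per
    congr 1
    exact Fin.ext (Nat.mod_eq_of_lt i.2)
  have hZmem : ∀ i j : Fin r, G.Adj (c i) (c j) → s(c i, c j) ∈ Z := by
    have hstep : ∀ i j : Fin r, (i.val + 1) % r = j.val → s(c i, c j) ∈ Z := by
      intro i j h
      rw [hZ, Finset.mem_image]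
      refine ⟨i, Finset.mem_univ _, ?_⟩
      have e : per r0 c (i.val + 1) = c j := by
        unfold per
        congr 1
        exact Fin.ext h
      rw [hper, e]
    intro i j h
    have h1 := c.map_rel_iff.1 h
    rw [Pool.Agent.P8H1.RC.cyc_adj (by omega)] at h1
    have hi := i.2
    have hj := j.2
    rcases h1 with h1 | h1 | ⟨h1, h2⟩ | ⟨h1, h2⟩
    · exact hstep i j (by rw [h1, Nat.mod_eq_of_lt hj])
    · rw [Sym2.eq_swap]
      exact hstep j i (by rw [h1, Nat.mod_eq_of_lt hi])
    · rw [Sym2.eq_swap]
      exact hstep j i (by rw [h2, Nat.mod_self, h1])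
    · exact hstep i j (by rw [h2, Nat.mod_self, h1])
  have hmemW : ∀ x, G.Adj v x → (∃ i, c i = x) ∨ x ∈ W := by
    intro x hx
    by_cases h : ∃ i, c i = x
    · exact Or.inl h
    · push Not at h
      right
      rw [hW]
      exact Finset.mem_filter.2 ⟨Finset.mem_univ _, hx, h⟩
  have hsub : ∀ e ∈ E, e ∈ Z ∨ (∃ o ∈ W, e ∈ B o) ∨ ∃ x ∈ W, ∃ y ∈ W, G.Adj x y ∧ e = s(x, y) := by
    intro e he
    rw [hE] at he
    obtain ⟨x, y, hx, hy, hxy, rfl⟩ := he
    rcases hmemW x hx with ⟨i, rfl⟩ | hxW <;> rcases hmemW y hy with ⟨j, rfl⟩ | hyW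
    · exact Or.inl (hZmem i j hxy)
    · right; left
      refine ⟨y, hyW, ?_⟩
      rw [hB, Sym2.eq_swap]
      exact Finset.mem_image.2 ⟨i, Finset.mem_filter.2 ⟨Finset.mem_univ _, hxy.symm⟩, rfl⟩
    · right; left
      refine ⟨x, hxW, ?_⟩
      rw [hB]
      exact Finset.mem_image.2 ⟨j, Finset.mem_filter.2 ⟨Finset.mem_univ _, hxy⟩, rfl⟩
    · right; right
      exact ⟨x, hxW, y, hyW, hxy, rfl⟩
  have hfin : ∀ T : Finset (Sym2 V), (∀ e ∈ E, e ∈ T) → E.ncard ≤ T.card := by
    intro T hT
    rw [← Set.ncard_coe_finset]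
    exact Set.ncard_le_ncard hT (Finset.finite_toSet _)
  rw [hDc]
  refine hEle.trans ?_
  have hp2 : W.card ≤ 2 := by omega
  rcases Nat.lt_or_ge 0 W.card with hW0 | hW0
  · -- then `r + 4 < N`
    have hrN : r + 4 < Fintype.card V := by omega
    have hB1 : ∀ o ∈ W, (Finset.univ.filter fun i : Fin r => G.Adj o (c i)).card ≤ 1 := by
      intro o ho
      rw [hW] at ho
      have ho' := (Finset.mem_filter.1 ho).2
      refine Finset.card_le_one.2 ?_
      intro i hi j hj
      exact nb2 V G (Fintype.card V) r h4 hsh hr4 hrN c v o hc ho'.1 ho'.2 i j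
        (Finset.mem_filter.1 hi).2 (Finset.mem_filter.1 hj).2
    have hBle : ∀ o ∈ W, (B o).card ≤ 1 := by
      intro o ho
      rw [hB]
      exact Finset.card_image_le.trans (hB1 o ho)
    rcases (by omega : W.card = 1 ∨ W.card = 2) with h1 | h2
    · obtain ⟨o, ho⟩ := Finset.card_eq_one.1 h1
      have h3 := hfin (Z ∪ B o) (by
        intro e he
        rcases hsub e he with h | ⟨o', ho', h⟩ | ⟨x, hx, y, hy, hxy, -⟩
        · exact Finset.mem_union_left _ h
        · rw [ho, Finset.mem_singleton] at ho'
          rw [ho'] at h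
          exact Finset.mem_union_right _ h
        · rw [ho, Finset.mem_singleton] at hx hy
          rw [hx, hy] at hxy
          exact absurd hxy (SimpleGraph.irrefl G))
      have h5 := Finset.card_union_le Z (B o)
      have h6 := hBle o (by rw [ho]; exact Finset.mem_singleton_self _)
      omega
    · obtain ⟨o, o', hne, ho⟩ := Finset.card_eq_two.1 h2
      have hoW : o ∈ W := by rw [ho]; simp
      have hoW' : o' ∈ W := by rw [ho]; simp
      obtain ⟨J, hJ⟩ : ∃ J : Finset (Sym2 V), J = if G.Adj o o' then {s(o, o')} else ∅ := ⟨_, rfl⟩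
      have hJc : J.card ≤ 1 := by
        rw [hJ]
        split_ifs <;> simp
      have h3 := hfin ((Z ∪ B o) ∪ (B o' ∪ J)) (by
        intro e he
        rcases hsub e he with h | ⟨p, hp, h⟩ | ⟨x, hx, y, hy, hxy, rfl⟩
        · exact Finset.mem_union_left _ (Finset.mem_union_left _ h)
        · rw [ho, Finset.mem_insert, Finset.mem_singleton] at hp
          rcases hp with rfl | rfl
          · exact Finset.mem_union_left _ (Finset.mem_union_right _ h)
          · exact Finset.mem_union_right _ (Finset.mem_union_left _ h)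
        · rw [ho, Finset.mem_insert, Finset.mem_singleton] at hx hy
          refine Finset.mem_union_right _ (Finset.mem_union_right _ ?_)
          rcases hx with rfl | rfl <;> rcases hy with rfl | rfl
          · exact absurd hxy (SimpleGraph.irrefl G)
          · rw [hJ, if_pos hxy]
            exact Finset.mem_singleton_self _
          · rw [hJ, if_pos hxy.symm, Sym2.eq_swap]
            exact Finset.mem_singleton_self _
          · exact absurd hxy (SimpleGraph.irrefl G))
      have h5 := Finset.card_union_le (Z ∪ B o) (B o' ∪ J)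
      have h6 := Finset.card_union_le Z (B o)
      have h7 := Finset.card_union_le (B o') J
      have h8 := hBle o hoW
      have h9 := hBle o' hoW'
      by_contra hcon
      have hJ1 : J.card = 1 := by omega
      have hBo : 0 < (B o).card := by omega
      have hBo' : 0 < (B o').card := by omega
      have hoo : G.Adj o o' := by
        by_contra h
        rw [hJ, if_neg h] at hJ1
        simp at hJ1
      have hex : ∀ o, 0 < (B o).card → ∃ i, G.Adj o (c i) := by
        intro o h
        obtain ⟨e, he⟩ := Finset.card_pos.1 h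
        rw [hB] at he
        obtain ⟨i, hi, -⟩ := Finset.mem_image.1 he
        exact ⟨i, (Finset.mem_filter.1 hi).2⟩
      obtain ⟨i, hi⟩ := hex o hBo
      obtain ⟨j, hj⟩ := hex o' hBo'
      have huniq : ∀ o ∈ W, ∀ i, G.Adj o (c i) → ∀ k, G.Adj o (c k) → k = i := by
        intro o ho i hi k hk
        exact Finset.card_le_one.1 (hB1 o ho) k (Finset.mem_filter.2 ⟨Finset.mem_univ _, hk⟩) i
          (Finset.mem_filter.2 ⟨Finset.mem_univ _, hi⟩)
      have hoW2 := hoW
      have hoW2' := hoW'
      rw [hW] at hoW2 hoW2'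
      have m1 := (Finset.mem_filter.1 hoW2).2
      have m2 := (Finset.mem_filter.1 hoW2').2
      exact bad h4 hsh hho hr4 hN (by omega) c hc m1.1 m2.1 m1.2 m2.2 hoo hi hj
        (huniq o hoW i hi) (huniq o' hoW' j hj)
  · have h3 := hfin Z (by
      intro e he
      have hWe : W = ∅ := Finset.card_eq_zero.1 (by omega)
      rcases hsub e he with h | ⟨o', ho', -⟩ | ⟨x, hx, -⟩
      · exact h
      · rw [hWe] at ho'
        exact absurd ho' (Finset.notMem_empty _)
      · rw [hWe] at hx
        exact absurd hx (Finset.notMem_empty _))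
    omega

end Pool.Agent.P8H22.RC
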