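import Pool.Agent.P8H79.RC.Stm5
import Pool.Agent.P8H52.RC.Short
import Pool.Agent.P8H1.RC.Win

/-!
# Project RC (helper79), package QF6: a shortest odd closed walk is isometric in the double cover.
-/

set_option autoImplicit false

namespace Pool.Agent.P8H22.RC

open Pool.Agent.P8H79.RC Pool.Agent.P8H52.RC Finset

/-! ### Windows on a cycle of length `L` -/

theorem windowN {L k : ℕ} (hL : 3 * k < L) (S : Finset ℕ) (hS : ∀ n ∈ S, n < L)
    (hp : ∀ n ∈ S, ∀ m ∈ S, cd L n m ≤ k) : S.card ≤ k + 1 := by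
  rcases S.eq_empty_or_nonempty with rfl | ⟨a, ha⟩
  · simp
  · obtain ⟨m, hm, hmin⟩ := Finset.exists_min_image S (fun i => Pool.Agent.P8H1.RC.off L k a i)
      ⟨a, ha⟩
    have h1 : ∀ i ∈ S, Pool.Agent.P8H1.RC.off L k a i ∈
        Finset.Icc (Pool.Agent.P8H1.RC.off L k a m) (Pool.Agent.P8H1.RC.off L k a m + k) := by
      intro i hi
      rw [Finset.mem_Icc]
      refine ⟨hmin i hi, ?_⟩
      have := Pool.Agent.P8H1.RC.off_diff hL (hS a ha) (hS i hi) (hS m hm) (hp a ha i hi)
        (hp a ha m hm) (hp i hi m hm)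
      omega
    have h2 := Finset.card_le_card_of_injOn (s := S)
      (t := Finset.Icc (Pool.Agent.P8H1.RC.off L k a m) (Pool.Agent.P8H1.RC.off L k a m + k))
      (fun i => Pool.Agent.P8H1.RC.off L k a i) h1 (by
        intro i hi j hj h
        exact Pool.Agent.P8H1.RC.off_inj (hS i hi) (hS j hj) h)
    rw [Int.card_Icc] at h2
    omega

theorem off_diff6 {L a i j : ℕ} (hL : 12 ≤ L) (ha : a < L) (hi : i < L) (hj : j < L)
    (hai : cd L a i ≤ 3) (haj : cd L a j ≤ 3) (hij : cd L i j ≤ 4) :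
    Pool.Agent.P8H1.RC.off L 3 a i - Pool.Agent.P8H1.RC.off L 3 a j ≤ 4 := by
  unfold cd at hai haj hij
  unfold Pool.Agent.P8H1.RC.off
  split_ifs <;> omega

theorem window6 {L : ℕ} (hL : 12 ≤ L) (S : Finset ℕ) (hS : ∀ n ∈ S, n < L) {a : ℕ} (ha : a < L)
    (hpa : ∀ n ∈ S, cd L a n ≤ 3) (hp : ∀ n ∈ S, ∀ m ∈ S, cd L n m ≤ 4) : S.card ≤ 5 := by
  rcases S.eq_empty_or_nonempty with rfl | hne
  · simp
  · obtain ⟨m, hm, hmin⟩ := Finset.exists_min_image S (fun i => Pool.Agent.P8H1.RC.off L 3 a i) hne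
    have h1 : ∀ i ∈ S, Pool.Agent.P8H1.RC.off L 3 a i ∈
        Finset.Icc (Pool.Agent.P8H1.RC.off L 3 a m) (Pool.Agent.P8H1.RC.off L 3 a m + 4) := by
      intro i hi
      rw [Finset.mem_Icc]
      refine ⟨hmin i hi, ?_⟩
      have := off_diff6 hL ha (hS i hi) (hS m hm) (hpa i hi) (hpa m hm) (hp i hi m hm)
      omega
    have h2 := Finset.card_le_card_of_injOn (s := S)
      (t := Finset.Icc (Pool.Agent.P8H1.RC.off L 3 a m) (Pool.Agent.P8H1.RC.off L 3 a m + 4))
      (fun i => Pool.Agent.P8H1.RC.off L 3 a i) h1 (by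
        intro i hi j hj h
        exact Pool.Agent.P8H1.RC.off_inj (hS i hi) (hS j hj) h)
    rw [Int.card_Icc] at h2
    omega

/-- In a proper set of positions, fewer positions are followed by a position of the set. -/
theorem succ_count {L : ℕ} (S : Finset ℕ) (hS : ∀ n ∈ S, n < L) (hc : S.card < L) {b : ℕ}
    (hb : S.card ≤ b + 1) : (S.filter (fun p => (p + 1) % L ∈ S)).card ≤ b := by
  rcases S.eq_empty_or_nonempty with rfl | ⟨p, hp⟩
  · simp
  · by_contra hlt
    push Not at hlt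
    have h1 : (S.filter (fun p => (p + 1) % L ∈ S)).card ≤ S.card := Finset.card_filter_le _ _
    have h2 : S.filter (fun p => (p + 1) % L ∈ S) = S :=
      Finset.eq_of_subset_of_card_le (Finset.filter_subset _ _) (by omega)
    have h3 : ∀ n ∈ S, (n + 1) % L ∈ S := by
      intro n hn
      rw [← h2] at hn
      exact (Finset.mem_filter.1 hn).2
    have h4 : ∀ k, (p + k) % L ∈ S := by
      intro k
      induction k with
      | zero => rw [add_zero, Nat.mod_eq_of_lt (hS p hp)]; exact hp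
      | succ k ih =>
        have := h3 _ ih
        rwa [Nat.mod_add_mod] at this
    have h5 : Finset.range L ⊆ S := by
      intro m hm
      rw [Finset.mem_range] at hm
      have h6 := h4 (m + L - p)
      have h7 := hS p hp
      rw [show p + (m + L - p) = m + L from by omega, Nat.add_mod_right,
        Nat.mod_eq_of_lt hm] at h6
      exact h6
    have h6 := Finset.card_le_card h5
    rw [Finset.card_range] at h6
    omega

/-! ### Shortest odd closed walks -/

variable {V : Type} {G : SimpleGraph V} {φ : V → V → ZMod 2}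

/-- `q 0, …, q l = q 0` is a shortest odd closed walk. -/
structure Dat (G : SimpleGraph V) (φ : V → V → ZMod 2) (l : ℕ) (q : ℕ → V) : Prop where
  symm : ∀ a b, φ a b = φ b a
  tri : ∀ a b c, G.Adj a b → G.Adj b c → G.Adj a c → φ a b + φ b c + φ a c = 0
  per : q l = q 0
  adj : ∀ i, i < l → G.Adj (q i) (q (i + 1))
  sum : ∑ k ∈ Finset.range l, φ (q k) (q (k + 1)) = 1
  min : ∀ a n, R G φ a a n 1 → l ≤ n

/-- Partial sums. -/
def S0 (φ : V → V → ZMod 2) (q : ℕ → V) (n : ℕ) : ZMod 2 :=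
  ∑ k ∈ Finset.range n, φ (q k) (q (k + 1))

theorem exists_dat (hc : G.Connected) (hs : ∀ a b, φ a b = φ b a)
    (ht : ∀ a b c, G.Adj a b → G.Adj b c → G.Adj a c → φ a b + φ b c + φ a c = 0)
    (hf : ¬ ∃ f : V → ZMod 2, ∀ a b, G.Adj a b → φ a b = f a + f b) :
    ∃ l q, Dat G φ l q := by
  classical
  obtain ⟨n0, a0, h0⟩ := exists_odd φ hc hs hf
  have hex : ∃ n, ∃ a, R G φ a a n 1 := ⟨n0, a0, h0⟩
  obtain ⟨r, Q, hQl, hQp⟩ := Nat.find_spec hex
  refine ⟨Nat.find hex, fun i => Q.getVert i, hs, ht, ?_, fun i hi => ?_, ?_,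
    fun a n h => Nat.find_min' hex ⟨a, h⟩⟩
  · simp [← hQl]
  · exact Q.adj_getVert_succ (by omega)
  · have h1 := par_eq_sum φ Q
    rw [hQp, hQl] at h1
    exact h1.symm

section
variable {l : ℕ} {q : ℕ → V} (D : Dat G φ l q)

theorem S0_succ (n : ℕ) : S0 φ q (n + 1) = S0 φ q n + φ (q n) (q (n + 1)) := by
  rw [S0, Finset.sum_range_succ]; rfl

include D

theorem arc {i j : ℕ} (hij : i ≤ j) (hj : j ≤ l) :
    R G φ (q i) (q j) (j - i) (S0 φ q i + S0 φ q j) := by
  induction j, hij using Nat.le_induction with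
  | base => rw [z2add, Nat.sub_self]; exact R.refl _
  | succ j hij ih =>
    have h := (ih (by omega)).trans (R.adj (D.adj j (by omega)))
    rw [show j - i + 1 = j + 1 - i from by omega, add_assoc, ← S0_succ] at h
    exact h

theorem keyA {i j k : ℕ} (hij : i ≤ j) (hj : j < l)
    (h : R G φ (q i) (q j) k (S0 φ q i + S0 φ q j)) : j - i ≤ k := by
  have h3 := arc D hj.le le_rfl
  have h4 := arc D (Nat.zero_le i) (by omega : i ≤ l)
  rw [D.per] at h3
  have h5 := (h.trans h3).trans h4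
  have h6 : S0 φ q i + S0 φ q j + (S0 φ q j + S0 φ q l) + (S0 φ q 0 + S0 φ q i) = 1 := by
    have e1 : S0 φ q l = 1 := D.sum
    have e0 : S0 φ q 0 = 0 := by simp [S0]
    rw [e1, e0]
    have e2 := z2add (S0 φ q i)
    have e3 := z2add (S0 φ q j)
    linear_combination e2 + e3
  rw [h6] at h5
  have := D.min _ _ h5
  omega

theorem keyB {i j k : ℕ} (hij : i ≤ j) (hj : j < l)
    (h : R G φ (q i) (q j) k (S0 φ q i + S0 φ q j + 1)) : l - (j - i) ≤ k := by
  have h3 := (arc D hij hj.le).symm D.symm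
  have h5 := h.trans h3
  have h6 : S0 φ q i + S0 φ q j + 1 + (S0 φ q i + S0 φ q j) = 1 := by
    have e2 := z2add (S0 φ q i)
    have e3 := z2add (S0 φ q j)
    linear_combination e2 + e3
  rw [h6] at h5
  have := D.min _ _ h5
  omega

/-- the distance on the cycle of length `l` -/
theorem keyC {i j k : ℕ} {c : ZMod 2} (hi : i < l) (hj : j < l) (h : R G φ (q i) (q j) k c) :
    cd l i j ≤ k := by
  have main : ∀ {i j : ℕ}, i ≤ j → j < l → R G φ (q i) (q j) k c → min (j - i) (l - (j - i)) ≤ k := by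
    intro i j hij hj h
    rcases z2 (c + (S0 φ q i + S0 φ q j)) with h1 | h1
    · have h2 : c = S0 φ q i + S0 φ q j := by
        have := z2two _ _ h1
        exact this.symm
      rw [h2] at h
      exact (min_le_left _ _).trans (keyA D hij hj h)
    · have h2 : c = S0 φ q i + S0 φ q j + 1 := by
        have e2 := z2add (S0 φ q i + S0 φ q j)
        linear_combination h1 - e2
      rw [h2] at h
      exact (min_le_right _ _).trans (keyB D hij hj h)
  rcases le_total i j with hij | hij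
  · have := main hij hj h
    rwa [cd, max_eq_right hij, min_eq_left hij]
  · have := main hij hi (h.symm D.symm)
    rwa [cd, max_eq_left hij, min_eq_right hij]

end

/-- the vertex at the position `n` of the lifted walk -/
def vt (l : ℕ) (q : ℕ → V) (n : ℕ) : V := q (n % l)

/-- the sheet at the position `n` of the lifted walk -/
def pr (φ : V → V → ZMod 2) (l : ℕ) (q : ℕ → V) (n : ℕ) : ZMod 2 :=
  S0 φ q (n % l) + ((n / l : ℕ) : ZMod 2)

section
variable {l : ℕ} {q : ℕ → V} (D : Dat G φ l q) (hl : 6 ≤ l)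

include D hl

theorem vt_adj (n : ℕ) : G.Adj (vt l q n) (vt l q (n + 1)) := by
  have hm : n % l < l := Nat.mod_lt _ (by omega)
  unfold vt
  rcases Nat.lt_or_ge (n % l + 1) l with h | h
  · have e : (n + 1) % l = n % l + 1 := by
      rw [Nat.add_mod, Nat.mod_eq_of_lt (by omega : 1 < l), Nat.mod_eq_of_lt h]
    rw [e]
    exact D.adj _ hm
  · have h' : n % l + 1 = l := by omega
    have e : (n + 1) % l = 0 := by
      rw [Nat.add_mod, Nat.mod_eq_of_lt (by omega : 1 < l), h', Nat.mod_self]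
    have h1 := D.adj _ hm
    rw [h', D.per] at h1
    rw [e]
    exact h1

theorem pr_succ (n : ℕ) :
    pr φ l q (n + 1) = pr φ l q n + φ (vt l q n) (vt l q (n + 1)) := by
  have hm : n % l < l := Nat.mod_lt _ (by omega)
  have hd := Nat.mod_add_div n l
  have hd' := Nat.mod_add_div (n + 1) l
  unfold pr vt
  rcases Nat.lt_or_ge (n % l + 1) l with h | h
  · have e : (n + 1) % l = n % l + 1 := by
      rw [Nat.add_mod, Nat.mod_eq_of_lt (by omega : 1 < l), Nat.mod_eq_of_lt h]
    have e' : (n + 1) / l = n / l := by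
      have : l * ((n + 1) / l) = l * (n / l) := by omega
      exact Nat.eq_of_mul_eq_mul_left (by omega) this
    rw [e, e', S0_succ]
    ring
  · have h' : n % l + 1 = l := by omega
    have e : (n + 1) % l = 0 := by
      rw [Nat.add_mod, Nat.mod_eq_of_lt (by omega : 1 < l), h', Nat.mod_self]
    have e' : (n + 1) / l = n / l + 1 := by
      have : l * ((n + 1) / l) = l * (n / l + 1) := by rw [mul_add, mul_one]; omega
      exact Nat.eq_of_mul_eq_mul_left (by omega) this
    have e1 : S0 φ q (n % l + 1) = 1 := by rw [h']; exact D.sum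
    rw [S0_succ] at e1
    rw [h', D.per] at e1
    have e0 : S0 φ q 0 = 0 := by simp [S0]
    rw [e, e', e0]
    push_cast
    linear_combination -e1

omit D hl in
theorem vt_mod (n : ℕ) : vt l q (n % (2 * l)) = vt l q n := by
  unfold vt
  rw [Nat.mod_mod_of_dvd _ (dvd_mul_left l 2)]

omit D in
theorem pr_mod (n : ℕ) : pr φ l q (n % (2 * l)) = pr φ l q n := by
  unfold pr
  rw [Nat.mod_mod_of_dvd _ (dvd_mul_left l 2)]
  congr 1
  have h1 : n / l = (n % (2 * l)) / l + 2 * (n / (2 * l)) := by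
    have h2 := Nat.mod_add_div n (2 * l)
    conv_lhs => rw [← h2]
    rw [show n % (2 * l) + 2 * l * (n / (2 * l)) = n % (2 * l) + l * (2 * (n / (2 * l))) from by ring]
    exact Nat.add_mul_div_left _ _ (by omega)
  rw [h1]
  push_cast
  have : (2 : ZMod 2) = 0 := by decide
  rw [this, zero_mul, add_zero]

/-- the lifted walk is isometric -/
theorem keyN {n m k : ℕ} (hn : n < 2 * l) (hm : m < 2 * l)
    (h : R G φ (vt l q n) (vt l q m) k (pr φ l q n + pr φ l q m)) : cd (2 * l) n m ≤ k := by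
  have main : ∀ {n m : ℕ}, n < 2 * l → m < 2 * l → n % l ≤ m % l →
      R G φ (vt l q n) (vt l q m) k (pr φ l q n + pr φ l q m) → cd (2 * l) n m ≤ k := by
    intro n m hn hm hnm h
    have hn1 : n % l < l := Nat.mod_lt _ (by omega)
    have hm1 : m % l < l := Nat.mod_lt _ (by omega)
    have hn2 := Nat.mod_add_div n l
    have hm2 := Nat.mod_add_div m l
    have hn3 : n / l < 2 := Nat.div_lt_of_lt_mul (by rw [mul_comm]; exact hn)
    have hm3 : m / l < 2 := Nat.div_lt_of_lt_mul (by rw [mul_comm]; exact hm)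
    unfold vt pr at h
    generalize n % l = i at *
    generalize m % l = j at *
    generalize n / l = a at *
    generalize m / l = b at *
    have hab : a = b ∨ (a = 0 ∧ b = 1) ∨ (a = 1 ∧ b = 0) := by omega
    rcases hab with rfl | ⟨rfl, rfl⟩ | ⟨rfl, rfl⟩
    · have e : S0 φ q i + (a : ZMod 2) + (S0 φ q j + (a : ZMod 2)) = S0 φ q i + S0 φ q j := by
        have := z2add (a : ZMod 2)
        linear_combination this
      rw [e] at h
      have := keyA D hnm hm1 h
      unfold cd
      omega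
    · have e : S0 φ q i + ((0 : ℕ) : ZMod 2) + (S0 φ q j + ((1 : ℕ) : ZMod 2)) =
          S0 φ q i + S0 φ q j + 1 := by push_cast; ring
      rw [e] at h
      have := keyB D hnm hm1 h
      unfold cd
      omega
    · have e : S0 φ q i + ((1 : ℕ) : ZMod 2) + (S0 φ q j + ((0 : ℕ) : ZMod 2)) =
          S0 φ q i + S0 φ q j + 1 := by push_cast; ring
      rw [e] at h
      have := keyB D hnm hm1 h
      unfold cd
      omega
  rcases le_total (n % l) (m % l) with h1 | h1
  · exact main hn hm h1 h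
  · have h2 := main hm hn h1 (by
      have := h.symm D.symm
      rwa [add_comm])
    unfold cd at h2 ⊢
    rwa [max_comm, min_comm n m]

omit D in
theorem exists_lift (i : ZMod l) (c : ZMod 2) : ∃ p, p < 2 * l ∧ ((p : ℕ) : ZMod l) = i ∧
    vt l q p = q i.val ∧ pr φ l q p = c := by
  have : NeZero l := ⟨by omega⟩
  have hi := i.val_lt
  rcases z2 (c + S0 φ q i.val) with h | h
  · refine ⟨i.val, by omega, ZMod.natCast_zmod_val i, ?_, ?_⟩
    · unfold vt; rw [Nat.mod_eq_of_lt hi]
    · unfold pr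
      rw [Nat.mod_eq_of_lt hi, Nat.div_eq_of_lt hi, Nat.cast_zero, add_zero]
      exact z2two _ _ h
  · refine ⟨i.val + l, by omega, by simp, ?_, ?_⟩
    · unfold vt; rw [Nat.add_mod_right, Nat.mod_eq_of_lt hi]
    · unfold pr
      rw [Nat.add_mod_right, Nat.mod_eq_of_lt hi, Nat.add_div_right _ (by omega),
        Nat.div_eq_of_lt hi]
      push_cast
      have e2 := z2add (S0 φ q i.val)
      linear_combination e2 - h

omit D in
theorem q_succ (i : ZMod l) : q (i + 1).val = vt l q (i.val + 1) := by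
  have : NeZero l := ⟨by omega⟩
  unfold vt
  rw [ZMod.val_add, ZMod.val_one'' (by omega)]

omit D in
theorem vt_of_cast {p : ℕ} {i : ZMod l} (h : ((p : ℕ) : ZMod l) = i) : vt l q p = q i.val := by
  unfold vt
  rw [← h, ZMod.val_natCast]

omit D in
theorem vt_succ_of_cast {p : ℕ} {i : ZMod l} (h : ((p : ℕ) : ZMod l) = i) :
    vt l q (p + 1) = q (i + 1).val := by
  apply vt_of_cast hl
  push_cast
  rw [h]

omit D in
/-- counting over positions -/
theorem ncard_le (A : Set (ZMod l)) (T : Finset ℕ)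
    (h : ∀ i ∈ A, ∃ p ∈ T, ((p : ℕ) : ZMod l) = i) : A.ncard ≤ T.card := by
  classical
  have h1 : A ⊆ ((T.image (fun p : ℕ => (p : ZMod l)) : Finset (ZMod l)) : Set (ZMod l)) := by
    intro i hi
    obtain ⟨p, hp, hpi⟩ := h i hi
    simp only [Finset.coe_image, Set.mem_image, Finset.mem_coe]
    exact ⟨p, hp, hpi⟩
  have h2 := Set.ncard_le_ncard h1 (Finset.finite_toSet _)
  rw [Set.ncard_coe_finset] at h2
  exact h2.trans Finset.card_image_le

/-- the positions at distance at most `k` from the point `(v, c)` of the double cover -/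
theorem dist_pair {v : V} {c : ZMod 2} {p p' n n' : ℕ} (hp : p < 2 * l) (hp' : p' < 2 * l)
    (h : R G φ v (vt l q p) n (pr φ l q p + c)) (h' : R G φ v (vt l q p') n' (pr φ l q p' + c)) :
    cd (2 * l) p p' ≤ n + n' := by
  have h1 := (h.symm D.symm).trans h'
  have e : pr φ l q p + c + (pr φ l q p' + c) = pr φ l q p + pr φ l q p' := by
    have := z2add c
    linear_combination this
  rw [e] at h1
  exact keyN D hl hp hp' h1

theorem t_inj : Function.Injective (fun i : ZMod l => q i.val) := by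
  have : NeZero l := ⟨by omega⟩
  intro i j hij
  have hij' : q i.val = q j.val := hij
  have h1 : R G φ (q i.val) (q j.val) 0 0 := by rw [← hij']; exact R.refl _
  have h2 := keyC D i.val_lt j.val_lt h1
  have hi := i.val_lt
  have hj := j.val_lt
  unfold cd at h2
  exact ZMod.val_injective l (by omega)

theorem t_adj (i j : ZMod l) : G.Adj (q i.val) (q j.val) ↔ j = i + 1 ∨ i = j + 1 := by
  have : NeZero l := ⟨by omega⟩
  constructor
  · intro h
    have h1 := keyC D i.val_lt j.val_lt (R.adj (φ := φ) h)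
    have h2 : i.val ≠ j.val := by
      intro e
      rw [e] at h
      exact G.loopless.irrefl _ h
    have hi := i.val_lt
    have hj := j.val_lt
    unfold cd at h1
    have ei := ZMod.natCast_zmod_val i
    have ej := ZMod.natCast_zmod_val j
    have h3 : j.val = i.val + 1 ∨ i.val = j.val + 1 ∨ (i.val = 0 ∧ j.val + 1 = l) ∨
        (j.val = 0 ∧ i.val + 1 = l) := by omega
    rcases h3 with h3 | h3 | ⟨h3, h4⟩ | ⟨h3, h4⟩
    · left; rw [← ej, h3]; push_cast; rw [ei]
    · right; rw [← ei, h3]; push_cast; rw [ej]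
    · right
      rw [← ei, h3, ← ej]
      have : ((j.val + 1 : ℕ) : ZMod l) = 0 := by rw [h4]; exact ZMod.natCast_self l
      push_cast at this ⊢
      rw [this]
    · left
      rw [← ej, h3, ← ei]
      have : ((i.val + 1 : ℕ) : ZMod l) = 0 := by rw [h4]; exact ZMod.natCast_self l
      push_cast at this ⊢
      rw [this]
  · have key : ∀ i : ZMod l, G.Adj (q i.val) (q (i + 1).val) := by
      intro i
      have h1 := vt_adj D hl i.val
      rw [q_succ (q := q) hl i]
      have e : vt l q i.val = q i.val := by unfold vt; rw [Nat.mod_eq_of_lt i.val_lt]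
      rwa [e] at h1
    rintro (rfl | rfl)
    · exact key i
    · exact (key j).symm

theorem t_ball1 (v : V) : {i : ZMod l | q i.val = v ∨ G.Adj v (q i.val)}.ncard ≤ 3 := by
  classical
  set S : Finset ℕ := (Finset.range (2 * l)).filter
    (fun p => ∃ n ≤ 1, R G φ v (vt l q p) n (pr φ l q p + 0)) with hS
  have h1 : S.card ≤ 2 + 1 := by
    apply windowN (L := 2 * l) (by omega)
    · intro n hn
      exact Finset.mem_range.1 (Finset.mem_filter.1 hn).1
    · intro n hn m hm
      obtain ⟨hn1, a, ha, hn2⟩ := Finset.mem_filter.1 hn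
      obtain ⟨hm1, b, hb, hm2⟩ := Finset.mem_filter.1 hm
      have := dist_pair D hl (Finset.mem_range.1 hn1) (Finset.mem_range.1 hm1) hn2 hm2
      omega
  refine (ncard_le hl _ S ?_).trans h1
  intro i hi
  rcases hi with hi | hi
  · obtain ⟨p, hp1, hp2, hp3, hp4⟩ := exists_lift (φ := φ) (q := q) hl i 0
    refine ⟨p, Finset.mem_filter.2 ⟨Finset.mem_range.2 hp1, 0, by omega, ?_⟩, hp2⟩
    rw [hp3, hp4, hi, add_zero]
    exact R.refl _
  · obtain ⟨p, hp1, hp2, hp3, hp4⟩ := exists_lift (φ := φ) (q := q) hl i (φ v (q i.val))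
    refine ⟨p, Finset.mem_filter.2 ⟨Finset.mem_range.2 hp1, 1, le_rfl, ?_⟩, hp2⟩
    rw [hp3, hp4, add_zero]
    exact R.adj hi

theorem t_ball2 (u v : V) (huv : G.Adj u v) :
    {i : ZMod l | (q i.val = v ∨ G.Adj v (q i.val)) ∨
      (q i.val = u ∨ G.Adj u (q i.val))}.ncard ≤ 4 := by
  classical
  set S : Finset ℕ := (Finset.range (2 * l)).filter
    (fun p => (∃ n ≤ 1, R G φ v (vt l q p) n (pr φ l q p + 0)) ∨
      ∃ n ≤ 1, R G φ u (vt l q p) n (pr φ l q p + φ v u)) with hS
  have hmix : ∀ {p p' n n' : ℕ}, p < 2 * l → p' < 2 * l →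
      R G φ v (vt l q p) n (pr φ l q p + 0) →
      R G φ u (vt l q p') n' (pr φ l q p' + φ v u) → cd (2 * l) p p' ≤ n + n' + 1 := by
    intro p p' n n' hp hp' h h'
    have h1 := (((h.symm D.symm).trans (R.adj (φ := φ) huv.symm)).trans h')
    have e : pr φ l q p + 0 + φ v u + (pr φ l q p' + φ v u) = pr φ l q p + pr φ l q p' := by
      have := z2add (φ v u)
      linear_combination this
    rw [e] at h1
    have := keyN D hl hp hp' h1
    omega
  have hcomm : ∀ p p', cd (2 * l) p p' = cd (2 * l) p' p := by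
    intro p p'
    unfold cd
    rw [max_comm, min_comm p p']
  have h1 : S.card ≤ 3 + 1 := by
    apply windowN (L := 2 * l) (by omega)
    · intro n hn
      exact Finset.mem_range.1 (Finset.mem_filter.1 hn).1
    · intro n hn m hm
      obtain ⟨hn1, hn2⟩ := Finset.mem_filter.1 hn
      obtain ⟨hm1, hm2⟩ := Finset.mem_filter.1 hm
      have hn1 := Finset.mem_range.1 hn1
      have hm1 := Finset.mem_range.1 hm1
      rcases hn2 with ⟨a, ha, hn2⟩ | ⟨a, ha, hn2⟩ <;> rcases hm2 with ⟨b, hb, hm2⟩ | ⟨b, hb, hm2⟩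
      · have := dist_pair D hl hn1 hm1 hn2 hm2
        omega
      · have := hmix hn1 hm1 hn2 hm2
        omega
      · have := hmix hm1 hn1 hm2 hn2
        rw [hcomm]
        omega
      · have := dist_pair D hl hn1 hm1 hn2 hm2
        omega
  refine (ncard_le hl _ S ?_).trans h1
  intro i hi
  rcases hi with (hi | hi) | (hi | hi)
  · obtain ⟨p, hp1, hp2, hp3, hp4⟩ := exists_lift (φ := φ) (q := q) hl i 0
    refine ⟨p, Finset.mem_filter.2 ⟨Finset.mem_range.2 hp1, Or.inl ⟨0, by omega, ?_⟩⟩, hp2⟩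
    rw [hp3, hp4, hi, add_zero]
    exact R.refl _
  · obtain ⟨p, hp1, hp2, hp3, hp4⟩ := exists_lift (φ := φ) (q := q) hl i (φ v (q i.val))
    refine ⟨p, Finset.mem_filter.2 ⟨Finset.mem_range.2 hp1, Or.inl ⟨1, le_rfl, ?_⟩⟩, hp2⟩
    rw [hp3, hp4, add_zero]
    exact R.adj hi
  · obtain ⟨p, hp1, hp2, hp3, hp4⟩ := exists_lift (φ := φ) (q := q) hl i (φ v u)
    refine ⟨p, Finset.mem_filter.2 ⟨Finset.mem_range.2 hp1, Or.inr ⟨0, by omega, ?_⟩⟩, hp2⟩
    rw [hp3, hp4, hi, z2add]
    exact R.refl _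
  · obtain ⟨p, hp1, hp2, hp3, hp4⟩ := exists_lift (φ := φ) (q := q) hl i (φ u (q i.val) + φ v u)
    refine ⟨p, Finset.mem_filter.2 ⟨Finset.mem_range.2 hp1, Or.inr ⟨1, le_rfl, ?_⟩⟩, hp2⟩
    rw [hp3, hp4, add_assoc, z2add, add_zero]
    exact R.adj hi

/-- a vertex `a` joined to `q i` and `q (i + 1)`: consecutive positions -/
theorem two_steps {a : V} {t : ZMod 2} {i : ZMod l} (h0 : G.Adj a (q i.val))
    (h1 : G.Adj a (q (i + 1).val)) : ∃ p, p < 2 * l ∧ ((p : ℕ) : ZMod l) = i ∧
      vt l q p = q i.val ∧ pr φ l q p = t + φ a (q i.val) ∧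
      vt l q ((p + 1) % (2 * l)) = q (i + 1).val ∧
      pr φ l q ((p + 1) % (2 * l)) = t + φ a (q (i + 1).val) := by
  obtain ⟨p, hp1, hp2, hp3, hp4⟩ := exists_lift (φ := φ) (q := q) hl i (t + φ a (q i.val))
  have h5 : vt l q (p + 1) = q (i + 1).val := vt_succ_of_cast hl hp2
  refine ⟨p, hp1, hp2, hp3, hp4, ?_, ?_⟩
  · rw [vt_mod, h5]
  · rw [pr_mod hl, pr_succ D hl, hp3, h5, hp4]
    have h6 : G.Adj (q i.val) (q (i + 1).val) := (t_adj D hl i (i + 1)).2 (Or.inl rfl)
    have h7 := D.tri a (q i.val) (q (i + 1).val) h0 h6 h1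
    have h8 := z2add (φ a (q (i + 1).val))
    linear_combination h7 - h8

theorem t_cov1 (w : V) :
    {i : ZMod l | G.Adj w (q i.val) ∧ G.Adj w (q (i + 1).val)}.ncard ≤ 2 := by
  classical
  set S : Finset ℕ := (Finset.range (2 * l)).filter
    (fun p => R G φ w (vt l q p) 1 (pr φ l q p + 0)) with hS
  have hlt : ∀ n ∈ S, n < 2 * l := fun n hn => Finset.mem_range.1 (Finset.mem_filter.1 hn).1
  have h1 : S.card ≤ 2 + 1 := by
    apply windowN (L := 2 * l) (by omega) S hlt
    intro n hn m hm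
    have := dist_pair D hl (hlt n hn) (hlt m hm) (Finset.mem_filter.1 hn).2
      (Finset.mem_filter.1 hm).2
    omega
  have h2 := succ_count S hlt (by omega) h1
  refine (ncard_le hl _ (S.filter (fun p => (p + 1) % (2 * l) ∈ S)) ?_).trans h2
  rintro i ⟨hi0, hi1⟩
  obtain ⟨p, hp1, hp2, hp3, hp4, hp5, hp6⟩ := two_steps D hl (t := 0) hi0 hi1
  refine ⟨p, Finset.mem_filter.2 ⟨Finset.mem_filter.2 ⟨Finset.mem_range.2 hp1, ?_⟩,
    Finset.mem_filter.2 ⟨Finset.mem_range.2 (Nat.mod_lt _ (by omega)), ?_⟩⟩, hp2⟩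
  · rw [hp3, hp4, zero_add, add_zero]
    exact R.adj hi0
  · rw [hp5, hp6, zero_add, add_zero]
    exact R.adj hi1

theorem t_cov4 (v : V) (hv : ∃ i : ZMod l, q i.val = v ∨ G.Adj v (q i.val)) :
    {i : ZMod l | ∃ a, a ∉ Set.range (fun i : ZMod l => q i.val) ∧ (a = v ∨ G.Adj v a) ∧
      G.Adj a (q i.val) ∧ G.Adj a (q (i + 1).val)}.ncard ≤ 4 := by
  classical
  set S : Finset ℕ := (Finset.range (2 * l)).filter
    (fun p => ∃ n ≤ 2, R G φ v (vt l q p) n (pr φ l q p + 0)) with hS
  have hlt : ∀ n ∈ S, n < 2 * l := fun n hn => Finset.mem_range.1 (Finset.mem_filter.1 hn).1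
  obtain ⟨p₀, hp₀, n₀, hn₀, hR₀⟩ : ∃ p₀, p₀ < 2 * l ∧ ∃ n₀ ≤ 1,
      R G φ v (vt l q p₀) n₀ (pr φ l q p₀ + 0) := by
    obtain ⟨i, hi | hi⟩ := hv
    · obtain ⟨p, hp1, hp2, hp3, hp4⟩ := exists_lift (φ := φ) (q := q) hl i 0
      refine ⟨p, hp1, 0, by omega, ?_⟩
      rw [hp3, hp4, hi, add_zero]
      exact R.refl _
    · obtain ⟨p, hp1, hp2, hp3, hp4⟩ := exists_lift (φ := φ) (q := q) hl i (φ v (q i.val))
      refine ⟨p, hp1, 1, le_rfl, ?_⟩
      rw [hp3, hp4, add_zero]
      exact R.adj hi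
  have h1 : S.card ≤ 5 := by
    apply window6 (L := 2 * l) (by omega) S hlt hp₀
    · intro n hn
      obtain ⟨-, b, hb, hn2⟩ := Finset.mem_filter.1 hn
      have := dist_pair D hl hp₀ (hlt n hn) hR₀ hn2
      omega
    · intro n hn m hm
      obtain ⟨-, b, hb, hn2⟩ := Finset.mem_filter.1 hn
      obtain ⟨-, c, hc, hm2⟩ := Finset.mem_filter.1 hm
      have := dist_pair D hl (hlt n hn) (hlt m hm) hn2 hm2
      omega
  have h2 := succ_count S hlt (by omega) (b := 4) h1
  refine (ncard_le hl _ (S.filter (fun p => (p + 1) % (2 * l) ∈ S)) ?_).trans h2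
  rintro i ⟨a, -, hva, hi0, hi1⟩
  rcases hva with rfl | hva
  · obtain ⟨p, hp1, hp2, hp3, hp4, hp5, hp6⟩ := two_steps D hl (t := 0) hi0 hi1
    refine ⟨p, Finset.mem_filter.2 ⟨Finset.mem_filter.2 ⟨Finset.mem_range.2 hp1, 1, by omega, ?_⟩,
      Finset.mem_filter.2 ⟨Finset.mem_range.2 (Nat.mod_lt _ (by omega)), 1, by omega, ?_⟩⟩, hp2⟩
    · rw [hp3, hp4, zero_add, add_zero]
      exact R.adj hi0
    · rw [hp5, hp6, zero_add, add_zero]
      exact R.adj hi1
  · obtain ⟨p, hp1, hp2, hp3, hp4, hp5, hp6⟩ := two_steps D hl (t := φ v a) hi0 hi1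
    refine ⟨p, Finset.mem_filter.2 ⟨Finset.mem_filter.2 ⟨Finset.mem_range.2 hp1, 2, le_rfl, ?_⟩,
      Finset.mem_filter.2 ⟨Finset.mem_range.2 (Nat.mod_lt _ (by omega)), 2, le_rfl, ?_⟩⟩, hp2⟩
    · rw [hp3, hp4, add_zero]
      exact (R.adj hva).trans (R.adj hi0)
    · rw [hp5, hp6, add_zero]
      exact (R.adj hva).trans (R.adj hi1)

end

theorem qf6 : S_QF6 := by
  intro V _ G φ hc hs ht hf
  obtain ⟨l, q, D⟩ := exists_dat hc hs ht hf
  have hinj : ∀ i j, i < l → j < l → q i = q j → i = j := by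
    intro i j hi hj hij
    have h1 : R G φ (q i) (q j) 0 0 := by rw [← hij]; exact R.refl _
    have h2 := keyC D hi hj h1
    unfold cd at h2
    omega
  have h4 : 4 ≤ l := by
    by_contra hlt
    have hS1 := D.sum
    have hper := D.per
    have hadj := D.adj
    have hcases : l = 0 ∨ l = 1 ∨ l = 2 ∨ l = 3 := by omega
    rcases hcases with h | h | h | h
    · rw [h] at hS1; simp at hS1
    · have h1 := hadj 0 (by omega)
      rw [h] at hper
      rw [zero_add, hper] at h1
      exact G.loopless.irrefl _ h1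
    · rw [h] at hper hS1
      rw [Finset.sum_range_succ, Finset.sum_range_succ, Finset.sum_range_zero, zero_add, zero_add,
        show 1 + 1 = 2 from rfl, hper, hs (q 1) (q 0), z2add] at hS1
      exact absurd hS1 (by decide)
    · rw [h] at hper hS1
      have a1 := hadj 0 (by omega)
      have a2 := hadj 1 (by omega)
      have a3 := hadj 2 (by omega)
      rw [zero_add] at a1
      rw [show 1 + 1 = 2 from rfl] at a2
      rw [show 2 + 1 = 3 from rfl, hper] at a3
      rw [Finset.sum_range_succ, Finset.sum_range_succ, Finset.sum_range_succ,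
        Finset.sum_range_zero, zero_add, zero_add, show 1 + 1 = 2 from rfl,
        show 2 + 1 = 3 from rfl, hper, hs (q 2) (q 0), ht _ _ _ a1 a2 a3.symm] at hS1
      exact absurd hS1 (by decide)
  have hlast : G.Adj (q (l - 1)) (q 0) := by
    have h1 := D.adj (l - 1) (by omega)
    rwa [show l - 1 + 1 = l from by omega, D.per] at h1
  have hadj_iff : ∀ i j : Fin l, G.Adj (q i.val) (q j.val) ↔
      (SimpleGraph.cycleGraph l).Adj i j := by
    intro i j
    rw [cyc_adj l (by omega)]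
    constructor
    · intro h
      have h1 := keyC D i.2 j.2 (R.adj (φ := φ) h)
      have h2 : i.val ≠ j.val := by
        intro e
        rw [e] at h
        exact G.loopless.irrefl _ h
      have hi := i.2
      have hj := j.2
      rw [cd] at h1
      omega
    · intro h
      rcases h with h | h | ⟨h, h'⟩ | ⟨h, h'⟩
      · rw [h]; exact D.adj _ (by have := j.2; omega)
      · rw [h]; exact (D.adj _ (by have := i.2; omega)).symm
      · rw [h, h']; exact hlast.symm
      · rw [h, h']; exact hlast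
  refine ⟨l, h4, ⟨⟨⟨fun i => q i.val, fun i j hij => Fin.ext (hinj _ _ i.2 j.2 hij)⟩, ?_⟩⟩, ?_⟩
  · intro i j
    exact hadj_iff i j
  · intro hl
    exact ⟨fun i => q i.val, t_inj D hl, t_adj D hl, fun w _ => t_cov1 D hl w,
      fun v hv => t_cov4 D hl v hv, t_ball1 D hl, fun u v huv => t_ball2 D hl u v huv⟩

end Pool.Agent.P8H22.RC
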